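import Mathlib
import Pool.Agent.Run7.h831.QS.Final

/-!
# Congruences modulo 4 and 8 for a limiting two-colour partition function

The integers `c n` are the coefficients of
`∑_{m ≥ 0} X^(2m+1) (-X^(2m+2); X^2)_∞ / (X^(2m+1); X^2)_∞^2`.
The three infinite families of congruences of the problem hold for all `k ≥ 1` and `n ≥ 0`.
-/

set_option autoImplicit false

namespace Pool.Agent.Results.MP_e258d6_nt.CongruencesHold

open PowerSeries Finset

/-- The first `N` terms of the defining series, with the first `N` factors of each infinite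
product.  (`PowerSeries.invOfUnit f 1` is the inverse of a series `f` with constant coefficient
`1`.)  The omitted terms are divisible by `X ^ (2 * N + 1)` and the omitted factors are congruent
to `1` modulo `X ^ (2 * N + 1)`. -/
noncomputable def T (N : ℕ) : PowerSeries ℤ :=
  ∑ m ∈ range N, X ^ (2 * m + 1) * (∏ j ∈ range N, (1 + X ^ (2 * m + 2 + 2 * j))) *
    PowerSeries.invOfUnit (∏ j ∈ range N, (1 - X ^ (2 * m + 1 + 2 * j))) 1 ^ 2

/-- The coefficient of `X ^ n` in the generating function. -/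
noncomputable def c (n : ℕ) : ℤ := coeff n (T (n + 1))

theorem T_eq : T = Run7.h831.QS.SG := rfl

theorem c_eq (n : ℕ) : c n = coeff n Run7.h831.QS.GG := by
  rw [c, T_eq, Run7.h831.QS.GG, Run7.h831.QS.limR, coeff_mk]

theorem c_stable (n N : ℕ) (h : n < N) : coeff n (T N) = c n := by
  have hd : ∀ n, (X : PowerSeries ℤ) ^ n ∣ Run7.h831.QS.SG (n + 1) - Run7.h831.QS.SG n :=
    Run7.h831.QS.SG_dvd
  have h1 := Run7.h831.QS.limR_dvd hd (show n + 1 ≤ N from h)
  rw [PowerSeries.X_pow_dvd_iff] at h1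
  have h2 := h1 n (Nat.lt_succ_self n)
  rw [map_sub, sub_eq_zero] at h2
  rw [T_eq, h2, c_eq]
  rfl

/-- `c n` is the coefficient of `X ^ n` in every sufficiently long truncation of the generating
function, and the three families of congruences hold. -/
theorem result :
    (∀ n N : ℕ, n < N → coeff n (T N) = c n) ∧
    ∀ k n : ℕ, 1 ≤ k →
      c (2 ^ (2 * k + 3) * n + (11 * 4 ^ k + 1) / 3) ≡ 0 [ZMOD 4] ∧
      c (2 ^ (2 * k + 3) * n + (17 * 4 ^ k + 1) / 3) ≡ 0 [ZMOD 8] ∧
      c (2 ^ (2 * k + 4) * n + (38 * 4 ^ k + 1) / 3) ≡ 0 [ZMOD 4] := by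
  refine ⟨c_stable, fun k n hk => ?_⟩
  obtain ⟨h1, h2, h3⟩ := Run7.h831.QS.main k hk n
  rw [c_eq, c_eq, c_eq]
  exact ⟨Int.modEq_zero_iff_dvd.2 h1, Int.modEq_zero_iff_dvd.2 h2, Int.modEq_zero_iff_dvd.2 h3⟩

end Pool.Agent.Results.MP_e258d6_nt.CongruencesHold
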